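import Pool.Agent.W841.PK.ChkS

/-! Project PK, task TABK: the packed kernels. -/

set_option autoImplicit false

namespace Pool.Agent.W45.PK

open Finset W841.PK W841.PK.Chk

/-! ### the loops -/

/-- upper bounds at `m, m + 1, ...`; `e`, `r` bound `exp (-m^2/2048)`, `exp (-(2m+1)/2048)` -/
def lpU : ℕ → ℕ → ℕ → ℕ → Bool
  | 0, _, _, _ => true
  | n + 1, m, e, r =>
    Nat.ble ((e * 39894228040143267795 * (12581888 + m * m)) * (10066329600 * 655360 * 2 ^ 40) +
        (2 ^ 100 * 10 ^ 20 * 402653184) * (655360 * 2 ^ 40) +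
        (if Nat.ble m 33 then 1 else 0) * ((2 ^ 100 * 10 ^ 20 * 402653184) * (10066329600 * 2 ^ 40)))
      (dg KUn (m + 224) * ((2 ^ 100 * 10 ^ 20 * 402653184) * (10066329600 * 655360))) &&
    frc (e * r / 2 ^ 100 + 1) fun e' => frc (r * 1266413264455136587431875831737 / 2 ^ 100 + 1)
      fun r' => frc (m + 1) fun m' => lpU n m' e' r'

/-- lower bounds -/
def lpL : ℕ → ℕ → ℕ → ℕ → ℕ → ℕ → Bool
  | 0, _, _, _, _, _ => true
  | n + 1, m, e, r, e1, r1 =>
    (Nat.beq (dg KLn (m + 224)) 0 ||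
    Nat.ble (dg KLn (m + 224) * ((2 ^ 100 * 10 ^ 20 * 402653184) * (1024 * 262144 * 10066329600)) +
        (2 ^ 100 * 10 ^ 20 * 402653184) * (1024 * 262144 * 2 ^ 40) +
        (((m + 2) * (m + 2) - 1024) * e1 * 39894228040143267795) *
          (402653184 * 10066329600 * 2 ^ 40))
      (e * 39894228040143267793 * (12581888 + m * m) * (1024 * 262144 * 10066329600 * 2 ^ 40))) &&
    frc (e * r / 2 ^ 100) fun e' => frc (r * 1266413264455136587431875831736 / 2 ^ 100)
      fun r' => frc (m + 1) fun m' =>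
        if Nat.ble 2 m then
          frc (e1 * r1 / 2 ^ 100 + 1) fun e1' =>
            frc (r1 * 1266413264455136587431875831737 / 2 ^ 100 + 1) fun r1' =>
              lpL n m' e' r' e1' r1'
        else lpL n m' e' r' e1 r1

/-- symmetry -/
def lpS : ℕ → Bool
  | 0 => true
  | n + 1 => Nat.beq (dg KUn (448 - n)) (dg KUn n) && Nat.beq (dg KLn (448 - n)) (dg KLn n) && lpS n

/-- sums of the digits -/
def smD (N : ℕ) : ℕ → ℕ → ℕ
  | 0, a => a
  | n + 1, a => frc (a + dg N n) fun a' => smD N n a'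

lemma lpU_true : lpU 225 0 (2 ^ 100) 1267031781299721506529526751571 = true := by decide +kernel

lemma lpL_true : lpL 225 0 (2 ^ 100) 1267031781299721506529526751570 (2 ^ 100)
    1267031781299721506529526751571 = true := by decide +kernel

lemma lpS_true : lpS 449 = true := by decide +kernel

lemma lt_U : KUn < 2 ^ (88 * 449) := by decide +kernel

lemma lt_L : KLn < 2 ^ (88 * 449) := by decide +kernel

lemma sm_U : smD KUn 449 0 < 2 ^ 41 := by decide +kernel

lemma sm_L : smD KLn 449 0 ≤ 2 ^ 40 := by decide +kernel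

lemma frc_eq {α : Type} (n : ℕ) (f : ℕ → α) : frc n f = f n := by cases n <;> rfl

/-! ### symmetry and sums -/

lemma lpS_sound : ∀ n : ℕ, lpS n = true → ∀ m < n, dg KUn (448 - m) = dg KUn m ∧
    dg KLn (448 - m) = dg KLn m
  | 0, _, m, hm => absurd hm (by omega)
  | n + 1, h, m, hm => by
    unfold lpS at h
    rw [Bool.and_eq_true, Bool.and_eq_true] at h
    rcases Nat.lt_or_ge m n with h1 | h1
    · exact lpS_sound n h.2 m h1
    · have h2 : m = n := by omega
      subst h2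
      exact ⟨Nat.eq_of_beq_eq_true h.1.1, Nat.eq_of_beq_eq_true h.1.2⟩

lemma smD_eq (N : ℕ) : ∀ n a : ℕ, smD N n a = a + ∑ m ∈ range n, dg N m
  | 0, a => by simp [smD]
  | n + 1, a => by
    unfold smD
    rw [frc_eq, smD_eq N n, Finset.sum_range_succ]
    ring

lemma sum_lt (N n B : ℕ) (h : smD N n 0 < B) : ∑ m ∈ range n, dg N m < B := by
  rwa [smD_eq, zero_add] at h

lemma sum_le (N n B : ℕ) (h : smD N n 0 ≤ B) : ∑ m ∈ range n, dg N m ≤ B := by
  rwa [smD_eq, zero_add] at h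

/-! ### the exponential function -/

noncomputable def EE (m : ℕ) : ℝ := Real.exp (-(m : ℝ) ^ 2 / 2048)

noncomputable def RR (m : ℕ) : ℝ := Real.exp (-(2 * (m : ℝ) + 1) / 2048)

lemma EE_pos (m : ℕ) : 0 < EE m := Real.exp_pos _

lemma RR_pos (m : ℕ) : 0 < RR m := Real.exp_pos _

lemma EE_succ (m : ℕ) : EE (m + 1) = EE m * RR m := by
  unfold EE RR
  rw [← Real.exp_add]
  congr 1
  push_cast
  ring

lemma RR_succ (m : ℕ) : RR (m + 1) = RR m * Real.exp (-1 / 1024) := by
  unfold RR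
  rw [← Real.exp_add]
  congr 1
  push_cast
  ring

lemma exp_a : (1267031781299721506529526751570 : ℝ) ≤ Real.exp (-1 / 2048) * 2 ^ 100 ∧
    Real.exp (-1 / 2048) * 2 ^ 100 ≤ (1267031781299721506529526751571 : ℝ) := by
  have h := Real.exp_bound (x := -1 / 2048) (by rw [abs_le]; constructor <;> norm_num) (n := 9)
    (by norm_num)
  rw [abs_le] at h
  simp only [Finset.sum_range_succ, Finset.sum_range_zero, Nat.factorial] at h
  norm_num at h
  constructor
  · have := h.1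
    norm_num at this ⊢
    linarith
  · have := h.2
    norm_num at this ⊢
    linarith

lemma exp_b : (1266413264455136587431875831736 : ℝ) ≤ Real.exp (-1 / 1024) * 2 ^ 100 ∧
    Real.exp (-1 / 1024) * 2 ^ 100 ≤ (1266413264455136587431875831737 : ℝ) := by
  have h := Real.exp_bound (x := -1 / 1024) (by rw [abs_le]; constructor <;> norm_num) (n := 9)
    (by norm_num)
  rw [abs_le] at h
  simp only [Finset.sum_range_succ, Finset.sum_range_zero, Nat.factorial] at h
  norm_num at h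
  constructor
  · have := h.1
    norm_num at this ⊢
    linarith
  · have := h.2
    norm_num at this ⊢
    linarith

lemma RR_zero : RR 0 = Real.exp (-1 / 2048) := by unfold RR; congr 1; norm_num

lemma EE_zero : EE 0 = 1 := by unfold EE; norm_num

/-- upper step -/
lemma up_step (x y : ℝ) (e r : ℕ) (_hx0 : 0 ≤ x) (hy0 : 0 ≤ y) (hx : x * 2 ^ 100 ≤ e)
    (hy : y * 2 ^ 100 ≤ r) : x * y * 2 ^ 100 ≤ ((e * r / 2 ^ 100 + 1 : ℕ) : ℝ) := by
  have h1 : (e * r : ℕ) < (e * r / 2 ^ 100 + 1) * 2 ^ 100 := by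
    have := Nat.lt_div_mul_add (a := e * r) (b := 2 ^ 100) (by positivity)
    rw [Nat.add_mul, one_mul]
    exact this
  have h2 : ((e : ℝ) * r) ≤ ((e * r / 2 ^ 100 + 1 : ℕ) : ℝ) * 2 ^ 100 := by
    have h3 : ((e * r : ℕ) : ℝ) ≤ (((e * r / 2 ^ 100 + 1) * 2 ^ 100 : ℕ) : ℝ) :=
      Nat.cast_le.2 h1.le
    rw [Nat.cast_mul, Nat.cast_mul, Nat.cast_pow, Nat.cast_ofNat] at h3
    exact h3
  have h4 : (x * 2 ^ 100) * (y * 2 ^ 100) ≤ (e : ℝ) * r :=
    mul_le_mul hx hy (by positivity) (by positivity)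
  have h5 : x * y * 2 ^ 100 * 2 ^ 100 ≤ ((e * r / 2 ^ 100 + 1 : ℕ) : ℝ) * 2 ^ 100 := by
    refine le_trans (le_of_eq ?_) (h4.trans h2)
    ring
  exact le_of_mul_le_mul_right h5 (by positivity)

/-- lower step -/
lemma lo_step (x y : ℝ) (e r : ℕ) (hx : (e : ℝ) ≤ x * 2 ^ 100)
    (hy : (r : ℝ) ≤ y * 2 ^ 100) : ((e * r / 2 ^ 100 : ℕ) : ℝ) ≤ x * y * 2 ^ 100 := by
  have h1 : (e * r / 2 ^ 100) * 2 ^ 100 ≤ e * r := Nat.div_mul_le_self _ _
  have h2 : ((e * r / 2 ^ 100 : ℕ) : ℝ) * 2 ^ 100 ≤ (e : ℝ) * r := by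
    have h3 : (((e * r / 2 ^ 100) * 2 ^ 100 : ℕ) : ℝ) ≤ ((e * r : ℕ) : ℝ) := Nat.cast_le.2 h1
    rw [Nat.cast_mul, Nat.cast_mul, Nat.cast_pow, Nat.cast_ofNat] at h3
    exact h3
  have h4 : (e : ℝ) * r ≤ (x * 2 ^ 100) * (y * 2 ^ 100) :=
    mul_le_mul hx hy (by positivity) ((Nat.cast_nonneg e).trans hx)
  have h5 : ((e * r / 2 ^ 100 : ℕ) : ℝ) * 2 ^ 100 ≤ x * y * 2 ^ 100 * 2 ^ 100 := by
    refine (h2.trans h4).trans (le_of_eq ?_)
    ring
  exact le_of_mul_le_mul_right h5 (by positivity)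

/-! ### algebra -/

lemma alg_U (E e c K b : ℝ) (h1 : E * 2 ^ 100 ≤ e) (hc : 0 ≤ c)
    (h2 : (e * 39894228040143267795 * c) * (10066329600 * 655360 * 2 ^ 40) +
        (2 ^ 100 * 10 ^ 20 * 402653184) * (655360 * 2 ^ 40) +
        b * ((2 ^ 100 * 10 ^ 20 * 402653184) * (10066329600 * 2 ^ 40)) ≤
      K * ((2 ^ 100 * 10 ^ 20 * 402653184) * (10066329600 * 655360))) :
    (E * (39894228040143267795 / 10 ^ 20) * (c / 402653184) + 1 / 10066329600 + b / 655360) *
      2 ^ 40 ≤ K := by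
  have h3 : E * 2 ^ 100 * (39894228040143267795 * c * (10066329600 * 655360 * 2 ^ 40)) ≤
      e * (39894228040143267795 * c * (10066329600 * 655360 * 2 ^ 40)) :=
    mul_le_mul_of_nonneg_right h1 (by positivity)
  have h4 : (E * (39894228040143267795 / 10 ^ 20) * (c / 402653184) + 1 / 10066329600 +
      b / 655360) * 2 ^ 40 =
      (E * 2 ^ 100 * (39894228040143267795 * c * (10066329600 * 655360 * 2 ^ 40)) +
        (2 ^ 100 * 10 ^ 20 * 402653184) * (655360 * 2 ^ 40) +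
        b * ((2 ^ 100 * 10 ^ 20 * 402653184) * (10066329600 * 2 ^ 40))) /
      ((2 ^ 100 * 10 ^ 20 * 402653184) * (10066329600 * 655360)) := by
    field_simp
  rw [h4, div_le_iff₀ (by positivity)]
  linarith

lemma alg_L (E e c K M e1 E1 : ℝ) (h1 : e ≤ E * 2 ^ 100) (h1' : E1 * 2 ^ 100 ≤ e1) (hc : 0 ≤ c)
    (hM : 0 ≤ M)
    (h2 : K * ((2 ^ 100 * 10 ^ 20 * 402653184) * (1024 * 262144 * 10066329600)) +
        (2 ^ 100 * 10 ^ 20 * 402653184) * (1024 * 262144 * 2 ^ 40) +
        (M * e1 * 39894228040143267795) * (402653184 * 10066329600 * 2 ^ 40) ≤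
      e * 39894228040143267793 * c * (1024 * 262144 * 10066329600 * 2 ^ 40)) :
    K ≤ (E * (39894228040143267793 / 10 ^ 20) * (c / 402653184) - 1 / 10066329600 -
      M / 1024 * (E1 * (39894228040143267795 / 10 ^ 20)) / 262144) * 2 ^ 40 := by
  have h3 : e * (39894228040143267793 * c * (1024 * 262144 * 10066329600 * 2 ^ 40)) ≤
      E * 2 ^ 100 * (39894228040143267793 * c * (1024 * 262144 * 10066329600 * 2 ^ 40)) :=
    mul_le_mul_of_nonneg_right h1 (by positivity)
  have h3' : E1 * 2 ^ 100 * (M * 39894228040143267795 * (402653184 * 10066329600 * 2 ^ 40)) ≤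
      e1 * (M * 39894228040143267795 * (402653184 * 10066329600 * 2 ^ 40)) :=
    mul_le_mul_of_nonneg_right h1' (by positivity)
  have h4 : (E * (39894228040143267793 / 10 ^ 20) * (c / 402653184) - 1 / 10066329600 -
      M / 1024 * (E1 * (39894228040143267795 / 10 ^ 20)) / 262144) * 2 ^ 40 =
      (E * 2 ^ 100 * (39894228040143267793 * c * (1024 * 262144 * 10066329600 * 2 ^ 40)) -
        (2 ^ 100 * 10 ^ 20 * 402653184) * (1024 * 262144 * 2 ^ 40) -
        E1 * 2 ^ 100 * (M * 39894228040143267795 * (402653184 * 10066329600 * 2 ^ 40))) /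
      ((2 ^ 100 * 10 ^ 20 * 402653184) * (1024 * 262144 * 10066329600)) := by
    field_simp
  rw [h4, le_div_iff₀ (by positivity)]
  linarith

/-! ### soundness of the loops -/

lemma lpU_sound : ∀ (n m e r : ℕ), lpU n m e r = true → EE m * 2 ^ 100 ≤ e → RR m * 2 ^ 100 ≤ r →
    ∀ i < n, (EE (m + i) * (39894228040143267795 / 10 ^ 20) *
      ((12581888 + (m + i : ℕ) * (m + i : ℕ)) / 402653184) + 1 / 10066329600 +
      (if m + i ≤ 33 then 1 else 0) / 655360) * 2 ^ 40 ≤ (dg KUn (m + i + 224) : ℝ)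
  | 0, _, _, _, _, _, _, i, hi => absurd hi (by omega)
  | n + 1, m, e, r, h, he, hr, i, hi => by
    unfold lpU at h
    rw [Bool.and_eq_true, frc_eq, frc_eq, frc_eq] at h
    obtain ⟨h1, h2⟩ := h
    rcases Nat.eq_zero_or_pos i with h0 | h0
    · subst h0
      rw [Nat.add_zero]
      have h3 := Nat.le_of_ble_eq_true h1
      have h4 := (Nat.cast_le (α := ℝ)).2 h3
      refine alg_U (EE m) e _ _ _ he (by positivity) ?_
      have h5 : ((if Nat.ble m 33 = true then 1 else 0 : ℕ) : ℝ) =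
          (if m ≤ 33 then 1 else 0 : ℝ) := by
        by_cases hm : m ≤ 33
        · rw [if_pos hm, if_pos (Nat.ble_eq ▸ hm)]; simp
        · rw [if_neg hm, if_neg (fun h => hm (Nat.le_of_ble_eq_true h))]; simp
      rw [← h5]
      push_cast at h4 ⊢
      linarith
    · have h3 := lpU_sound n (m + 1) _ _ h2
        (by rw [EE_succ]; exact up_step _ _ _ _ (EE_pos m).le (RR_pos m).le he hr)
        (by rw [RR_succ]; exact up_step _ _ _ _ (RR_pos m).le (Real.exp_pos _).le hr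
              (by exact_mod_cast exp_b.2))
        (i - 1) (by omega)
      rw [show m + 1 + (i - 1) = m + i by omega] at h3
      exact h3

lemma hc_nn (m : ℕ) : (0 : ℝ) ≤ 12581888 + (m : ℝ) * m := by positivity

lemma lpL_sound : ∀ (n m e r e1 r1 : ℕ), lpL n m e r e1 r1 = true → (e : ℝ) ≤ EE m * 2 ^ 100 →
    (r : ℝ) ≤ RR m * 2 ^ 100 → EE (m - 2) * 2 ^ 100 ≤ e1 → RR (m - 2) * 2 ^ 100 ≤ r1 →
    ∀ i < n, dg KLn (m + i + 224) = 0 ∨ (dg KLn (m + i + 224) : ℝ) ≤
      (EE (m + i) * (39894228040143267793 / 10 ^ 20) *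
      ((12581888 + (m + i : ℕ) * (m + i : ℕ)) / 402653184) - 1 / 10066329600 -
      (((m + i + 2) * (m + i + 2) - 1024 : ℕ) : ℝ) / 1024 *
        (EE (m + i - 2) * (39894228040143267795 / 10 ^ 20)) / 262144) * 2 ^ 40
  | 0, _, _, _, _, _, _, _, _, _, _, i, hi => absurd hi (by omega)
  | n + 1, m, e, r, e1, r1, h, he, hr, he1, hr1, i, hi => by
    unfold lpL at h
    simp only [frc_eq] at h
    rw [Bool.and_eq_true, Bool.or_eq_true] at h
    obtain ⟨h1, h2⟩ := h
    rcases Nat.eq_zero_or_pos i with h0 | h0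
    · subst h0
      simp only [Nat.add_zero]
      rcases h1 with h1 | h1
      · exact Or.inl (Nat.eq_of_beq_eq_true h1)
      · right
        have h3 := Nat.le_of_ble_eq_true h1
        obtain ⟨Mn, hMn⟩ : ∃ Mn : ℕ, Mn = (m + 2) * (m + 2) - 1024 := ⟨_, rfl⟩
        rw [← hMn] at h3 ⊢
        have h4 := (Nat.cast_le (α := ℝ)).2 h3
        have hM : (0 : ℝ) ≤ Mn := Nat.cast_nonneg Mn
        refine alg_L (EE m) e (12581888 + (m : ℝ) * m) _ (Mn : ℝ) e1 (EE (m - 2)) he he1 (hc_nn m) hM ?_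
        push_cast at h4 ⊢
        linarith
    · have hE : ((e * r / 2 ^ 100 : ℕ) : ℝ) ≤ EE (m + 1) * 2 ^ 100 := by
        rw [EE_succ]; exact lo_step _ _ _ _ he hr
      have hR : ((r * 1266413264455136587431875831736 / 2 ^ 100 : ℕ) : ℝ) ≤
          RR (m + 1) * 2 ^ 100 := by
        rw [RR_succ]; exact lo_step _ _ _ _ hr (by exact_mod_cast exp_b.1)
      by_cases hm : 2 ≤ m
      · rw [if_pos (by rw [Nat.ble_eq]; exact hm)] at h2
        have h3 := lpL_sound n (m + 1) _ _ _ _ h2 hE hR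
          (by
            rw [show m + 1 - 2 = m - 2 + 1 by omega, EE_succ]
            exact up_step _ _ _ _ (EE_pos _).le (RR_pos _).le he1 hr1)
          (by
            rw [show m + 1 - 2 = m - 2 + 1 by omega, RR_succ]
            exact up_step _ _ _ _ (RR_pos _).le (Real.exp_pos _).le hr1
              (by exact_mod_cast exp_b.2))
          (i - 1) (by omega)
        rw [show m + 1 + (i - 1) = m + i by omega] at h3
        exact h3
      · rw [if_neg (fun h => hm (Nat.le_of_ble_eq_true h))] at h2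
        have h3 := lpL_sound n (m + 1) _ _ _ _ h2 hE hR
          (by rw [show m + 1 - 2 = m - 2 by omega]; exact he1)
          (by rw [show m + 1 - 2 = m - 2 by omega]; exact hr1)
          (i - 1) (by omega)
        rw [show m + 1 + (i - 1) = m + i by omega] at h3
        exact h3

/-! ### the density -/

lemma gd_eq (n : ℕ) : gd ((n : ℝ) / 32) = EE n * (1 / √(2 * Real.pi)) := by
  unfold gd EE
  rw [mul_one_div]
  congr 2
  field_simp
  ring

lemma g0_lo : (39894228040143267793 : ℝ) / 10 ^ 20 ≤ 1 / √(2 * Real.pi) := by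
  have h1 := Real.pi_lt_d20
  have h2 := Real.pi_pos
  rw [le_div_iff₀ (Real.sqrt_pos.2 (by positivity)), ← le_div_iff₀' (by norm_num), Real.sqrt_le_left
    (by norm_num)]
  have : (2 : ℝ) * 3.14159265358979323847 ≤ (1 / (39894228040143267793 / 10 ^ 20)) ^ 2 := by
    norm_num
  linarith

lemma g0_hi : 1 / √(2 * Real.pi) ≤ (39894228040143267795 : ℝ) / 10 ^ 20 := by
  have h1 := Real.pi_gt_d20
  have h2 := Real.pi_pos
  rw [div_le_iff₀ (Real.sqrt_pos.2 (by positivity)), ← div_le_iff₀' (by norm_num)]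
  apply Real.le_sqrt_of_sq_le
  have : (1 / (39894228040143267795 / 10 ^ 20)) ^ 2 ≤ (2 : ℝ) * 3.14159265358979323846 := by
    norm_num
  linarith

lemma main_eq (m : ℤ) : gd ((m : ℝ) / 32) / 32 * (1 + (((m : ℝ) / 32) ^ 2 - 1) / (12 * 32 ^ 2)) =
    EE m.natAbs * (1 / √(2 * Real.pi)) *
      ((12581888 + (m.natAbs : ℕ) * (m.natAbs : ℕ)) / 402653184) := by
  have h1 : ((m.natAbs : ℕ) : ℝ) = |(m : ℝ)| := by rw [Nat.cast_natAbs, Int.cast_abs]
  have h2 : gd ((m : ℝ) / 32) = EE m.natAbs * (1 / √(2 * Real.pi)) := by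
    rw [← gd_eq, h1]
    unfold gd
    rw [div_pow, div_pow, sq_abs]
  rw [h2, h1]
  have h3 : |(m : ℝ)| * |(m : ℝ)| = (m : ℝ) ^ 2 := by rw [← sq, sq_abs]
  rw [h3]
  ring

lemma kap_up (hk : S_Kap) (m : ℤ) : kap m ≤ EE m.natAbs * (39894228040143267795 / 10 ^ 20) *
      ((12581888 + (m.natAbs : ℕ) * (m.natAbs : ℕ)) / 402653184) + 1 / 10066329600 := by
  have h1 := (abs_le.1 (hk.1 m)).2
  have h2 := main_eq m
  have h3 : ((m : ℤ) : ℝ) / 32 = (m : ℝ) / 32 := rfl
  have hg1 := g0_hi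
  have h4 : EE m.natAbs * (1 / √(2 * Real.pi)) *
      ((12581888 + (m.natAbs : ℕ) * (m.natAbs : ℕ)) / 402653184) ≤
      EE m.natAbs * (39894228040143267795 / 10 ^ 20) *
      ((12581888 + (m.natAbs : ℕ) * (m.natAbs : ℕ)) / 402653184) :=
    mul_le_mul_of_nonneg_right (mul_le_mul_of_nonneg_left hg1 (EE_pos _).le)
      (div_nonneg (hc_nn _) (by norm_num))
  have h5 : (1 : ℝ) / (300 * 32 ^ 5) = 1 / 10066329600 := by norm_num
  rw [h5] at h1
  rw [← h2] at h4
  linarith

lemma kap_lo (hk : S_Kap) (m : ℤ) : EE m.natAbs * (39894228040143267793 / 10 ^ 20) *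
      ((12581888 + (m.natAbs : ℕ) * (m.natAbs : ℕ)) / 402653184) - 1 / 10066329600 ≤ kap m := by
  have h1 := (abs_le.1 (hk.1 m)).1
  have h2 := main_eq m
  have hg1 := g0_lo
  have h4 : EE m.natAbs * (39894228040143267793 / 10 ^ 20) *
      ((12581888 + (m.natAbs : ℕ) * (m.natAbs : ℕ)) / 402653184) ≤
      EE m.natAbs * (1 / √(2 * Real.pi)) *
      ((12581888 + (m.natAbs : ℕ) * (m.natAbs : ℕ)) / 402653184) :=
    mul_le_mul_of_nonneg_right (mul_le_mul_of_nonneg_left hg1 (EE_pos _).le)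
      (div_nonneg (hc_nn _) (by norm_num))
  have h5 : (1 : ℝ) / (300 * 32 ^ 5) = 1 / 10066329600 := by norm_num
  rw [h5] at h1
  rw [← h2] at h4
  linarith

lemma mmw_up (m : ℤ) : mmw m ≤
    (((m.natAbs + 2) * (m.natAbs + 2) - 1024 : ℕ) : ℝ) / 1024 *
        (EE (m.natAbs - 2) * (39894228040143267795 / 10 ^ 20)) / 262144 := by
  have h1 : ((|m| : ℤ) : ℝ) = ((m.natAbs : ℕ) : ℝ) := by
    rw [Nat.cast_natAbs]
  unfold mmw
  rw [h1]
  generalize m.natAbs = n
  have h2 : max (0 : ℝ) ((n : ℝ) - 2) = ((n - 2 : ℕ) : ℝ) := by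
    rcases Nat.lt_or_ge n 2 with h | h
    · rw [show n - 2 = 0 by omega, Nat.cast_zero, max_eq_left]
      have : (n : ℝ) ≤ 2 := by exact_mod_cast h.le
      linarith
    · rw [Nat.cast_sub h, max_eq_right]
      · norm_num
      · have : (2 : ℝ) ≤ n := by exact_mod_cast h
        linarith
  have h3 : max (0 : ℝ) ((((n : ℝ) + 2) / 32) ^ 2 - 1) =
      (((n + 2) * (n + 2) - 1024 : ℕ) : ℝ) / 1024 := by
    rcases Nat.lt_or_ge ((n + 2) * (n + 2)) 1024 with h | h
    · rw [show (n + 2) * (n + 2) - 1024 = 0 by omega, Nat.cast_zero, zero_div, max_eq_left]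
      have : ((n : ℝ) + 2) * (n + 2) ≤ 1024 := by exact_mod_cast h.le
      have e : (((n : ℝ) + 2) / 32) ^ 2 = ((n : ℝ) + 2) * (n + 2) / 1024 := by ring
      rw [e]
      linarith
    · rw [Nat.cast_sub h, max_eq_right]
      · push_cast
        ring
      · have : (1024 : ℝ) ≤ ((n : ℝ) + 2) * (n + 2) := by exact_mod_cast h
        have e : (((n : ℝ) + 2) / 32) ^ 2 = ((n : ℝ) + 2) * (n + 2) / 1024 := by ring
        rw [e]
        linarith
  rw [h2, h3, gd_eq]
  have hg1 := g0_hi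
  have e : (8 : ℝ) * 32 ^ 3 = 262144 := by norm_num
  rw [e]
  apply div_le_div_of_nonneg_right _ (by norm_num)
  refine mul_le_mul_of_nonneg_left ?_ (div_nonneg (Nat.cast_nonneg _) (by norm_num))
  exact mul_le_mul_of_nonneg_left hg1 (EE_pos _).le

theorem tabk (_hg : S_Gauss) (hk : S_Kap) (hp : S_KapPos) : S_TabK := by
  have hsym := lpS_sound 449 lpS_true
  have hidx : ∀ m : ℤ, |m| ≤ 224 → m.natAbs < 225 ∧
      dg KUn (m + 224).toNat = dg KUn (m.natAbs + 224) ∧
      dg KLn (m + 224).toNat = dg KLn (m.natAbs + 224) := by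
    intro m hm
    rw [Int.abs_eq_natAbs] at hm
    refine ⟨by omega, ?_⟩
    rcases le_or_gt 0 m with h | h
    · rw [show (m + 224).toNat = m.natAbs + 224 by omega]
      exact ⟨rfl, rfl⟩
    · rw [show (m + 224).toNat = 448 - (m.natAbs + 224) by omega]
      exact hsym (m.natAbs + 224) (by omega)
  refine ⟨lt_U, lt_L, hsym, sum_lt _ _ _ sm_U, sum_le _ _ _ sm_L, ?_, ?_⟩
  · intro m hm
    obtain ⟨hn, hi1, hi2⟩ := hidx m hm
    have hU := lpU_sound 225 0 _ _ lpU_true (by rw [EE_zero]; norm_num)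
      (by rw [RR_zero]; exact_mod_cast exp_a.2) m.natAbs hn
    simp only [Nat.zero_add] at hU
    rw [hi1]
    refine le_trans ?_ hU
    apply mul_le_mul_of_nonneg_right _ (by norm_num)
    have h1 := kap_up hk m
    have h2 : (if |m| ≤ 33 then 1 / (20 * 32 ^ 3) else 0 : ℝ) ≤
        (if m.natAbs ≤ 33 then 1 else 0) / 655360 := by
      by_cases h : |m| ≤ 33
      · have h' : m.natAbs ≤ 33 := by rw [Int.abs_eq_natAbs] at h; omega
        rw [if_pos h, if_pos h']
        norm_num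
      · have h' : ¬ m.natAbs ≤ 33 := by rw [Int.abs_eq_natAbs] at h; omega
        rw [if_neg h, if_neg h']
        norm_num
    exact add_le_add h1 h2
  · intro m hm
    obtain ⟨hn, hi1, hi2⟩ := hidx m hm
    have hL := lpL_sound 225 0 _ _ _ _ lpL_true (by rw [EE_zero]; norm_num)
      (by rw [RR_zero]; exact_mod_cast exp_a.1) (by rw [EE_zero]; norm_num)
      (by rw [RR_zero]; exact_mod_cast exp_a.2) m.natAbs hn
    simp only [Nat.zero_add] at hL
    rw [hi2]
    rcases hL with hL | hL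
    · rw [hL, Nat.cast_zero]
      have := hp m hm
      exact mul_nonneg (by linarith) (by norm_num)
    · refine hL.trans ?_
      apply mul_le_mul_of_nonneg_right _ (by norm_num)
      have h1 := kap_lo hk m
      have h2 := mmw_up m
      exact sub_le_sub h1 h2

end Pool.Agent.W45.PK
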